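import Pool.Agent.helper96.PP2.SpecB

/-!
# Row pg:LBF (MP_655a6f_al): the closed additive group of a closed subgroup is stable under the
values of the trace form
-/

set_option autoImplicit false

namespace Pool.Agent.PP2

open Topology Matrix

section LBFh

variable {R : Type} [CommRing R] [TopologicalSpace R] [IsTopologicalRing R] [Invertible (2 : R)]

/-- A continuous additive map which sends the generators into a closed group sends everything
there. -/
theorem LBF_ext {Γ : Subgroup (GL (Fin 2) R)} (φ : M2 R →+ M2 R) (hφ : Continuous φ)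
    (K : AddSubgroup (M2 R)) (hK : IsClosed (K : Set (M2 R))) (h : ∀ g ∈ Γ, φ (TH g) ∈ K) :
    ∀ X ∈ LL Γ, φ X ∈ K := by
  intro X hX
  have h1 : LL Γ ≤ K.comap φ := by
    unfold LL
    refine AddSubgroup.topologicalClosure_minimal _ ?_ (hK.preimage hφ)
    rw [AddSubgroup.closure_le]
    rintro _ ⟨g, hg, rfl⟩
    exact h g hg
  exact h1 hX

theorem LBF_closed (Γ : Subgroup (GL (Fin 2) R)) : IsClosed (LL Γ : Set (M2 R)) := by
  unfold LL
  exact AddSubgroup.isClosed_topologicalClosure _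

theorem LBF_mem {Γ : Subgroup (GL (Fin 2) R)} {g : GL (Fin 2) R} (hg : g ∈ Γ) : TH g ∈ LL Γ := by
  unfold LL
  exact AddSubgroup.le_topologicalClosure _ (AddSubgroup.subset_closure ⟨g, hg, rfl⟩)

theorem LBF_two (g h : GL (Fin 2) R) (J : Ideal R) (hg : g ∈ Sg J) :
    TH (g * h) + TH (g⁻¹ * h) = (2 * ht g) • TH h := by
  rw [Lib_TH_mul, Lib_TH_mul, Lib_TH_inv J g hg, Lib_ht_inv J g hg, Lib_neg_Br, smul_neg, smul_neg,
    two_mul, add_smul]
  abel

end LBFh

theorem LBF_row (hHAV : HAV_stmt) : LBF_stmt := by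
  intro p R _ _ _ _ _ _ J hp hp2 hS Γ hΓ
  have hcl := LBF_closed Γ
  have hhalf : ∀ X ∈ LL Γ, ⅟(2 : R) • X ∈ LL Γ := (hHAV p R J hp hp2 hS).1 (LL Γ) hcl
  have hh := Lib_half (R := R)
  have h1 : ∀ g ∈ Γ, ∀ Z ∈ LL Γ, ht g • Z ∈ LL Γ := by
    intro g hg
    refine LBF_ext (DistribSMul.toAddMonoidHom (M2 R) (ht g)) (continuous_const_smul (ht g)) (LL Γ)
      hcl fun h hh' => ?_
    show ht g • TH h ∈ LL Γ
    have h2 : ht g • TH h = ⅟(2 : R) • (TH (g * h) + TH (g⁻¹ * h)) := by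
      rw [LBF_two g h J (hΓ hg), smul_smul, ← mul_assoc, hh, one_mul]
    rw [h2]
    exact hhalf _ ((LL Γ).add_mem (LBF_mem (Γ.mul_mem hg hh'))
      (LBF_mem (Γ.mul_mem (Γ.inv_mem hg) hh')))
  have h3 : ∀ g ∈ Γ, ∀ h ∈ Γ, ∀ Z ∈ LL Γ, Bf (TH g) (TH h) • Z ∈ LL Γ := by
    intro g hg h hh' Z hZ
    have h4 : Bf (TH g) (TH h) • Z = (ht (g * h) • Z - ht g • (ht h • Z)) +
        (ht (g * h) • Z - ht g • (ht h • Z)) := by
      rw [smul_smul, ← sub_smul, ← add_smul, Lib_ht_mul]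
      congr 1
      linear_combination (-(Bf (TH g) (TH h))) * hh
    rw [h4]
    have h5 := (LL Γ).sub_mem (h1 (g * h) (Γ.mul_mem hg hh') Z hZ) (h1 g hg _ (h1 h hh' Z hZ))
    exact (LL Γ).add_mem h5 h5
  have h6 : ∀ X ∈ LL Γ, ∀ h ∈ Γ, ∀ Z ∈ LL Γ, Bf X (TH h) • Z ∈ LL Γ := by
    intro X hX h hh' Z hZ
    refine LBF_ext (AddMonoidHom.mk' (fun X => Bf X (TH h) • Z) fun a b => ?_) ?_ (LL Γ) hcl
      (fun g hg => h3 g hg h hh' Z hZ) X hX
    · rw [Lib_add_Bf, add_smul]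
    · exact (Lib_cont_Bf.comp (continuous_id.prodMk continuous_const)).smul continuous_const
  intro X hX Y hY Z hZ
  refine LBF_ext (AddMonoidHom.mk' (fun Y => Bf X Y • Z) fun a b => ?_) ?_ (LL Γ) hcl
    (fun g hg => h6 X hX g hg Z hZ) Y hY
  · rw [Lib_Bf_add, add_smul]
  · exact (Lib_cont_Bf.comp (continuous_const.prodMk continuous_id)).smul continuous_const

end Pool.Agent.PP2
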