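import Pool.Agent.helper96.PP2.SpecA

/-!
# Row pg:TRS (MP_655a6f_al): a group of prime order has nonzero third cohomology
-/

set_option autoImplicit false

namespace Pool.Agent.PP2

open Topology Matrix

/-- The cocycle identity of the carry function. -/
theorem TRS_carry {C : Type} [Group C] (p : ℕ) (hp : 0 < p) (v : C → ℕ)
    (hv : ∀ x y, v (x * y) = (v x + v y) % p) (y z w : C) :
    (v z + v w) / p + (v y + v (z * w)) / p = (v (y * z) + v w) / p + (v y + v z) / p := by
  have h1 := Nat.div_add_mod (v z + v w) p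
  have h2 := Nat.div_add_mod (v y + v (z * w)) p
  have h3 := Nat.div_add_mod (v (y * z) + v w) p
  have h4 := Nat.div_add_mod (v y + v z) p
  rw [← hv] at h1 h2 h3 h4
  rw [mul_assoc] at h3
  have h5 : p * ((v z + v w) / p + (v y + v (z * w)) / p) =
      p * ((v (y * z) + v w) / p + (v y + v z) / p) := by
    rw [mul_add, mul_add]
    omega
  exact Nat.eq_of_mul_eq_mul_left hp h5

theorem TRS_row : TRS_stmt := by
  intro p C _ _ _ hp hC hH
  haveI : Fact p.Prime := ⟨hp⟩
  haveI : NeZero p := ⟨hp.ne_zero⟩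
  haveI : IsCyclic C := isCyclic_of_prime_card hC
  obtain ⟨e⟩ : Nonempty (C ≃* Multiplicative (ZMod p)) := by
    have e0 := zmodCyclicMulEquiv (G := C) inferInstance
    rw [hC] at e0
    exact ⟨e0.symm⟩
  obtain ⟨lg, hlg⟩ : ∃ lg : C → ZMod p, ∀ x, lg x = (e x).toAdd := ⟨_, fun x => rfl⟩
  have hmul : ∀ x y, lg (x * y) = lg x + lg y := by
    intro x y
    rw [hlg, hlg, hlg, map_mul, toAdd_mul]
  obtain ⟨c, hc⟩ : ∃ c : C, lg c = 1 :=
    ⟨e.symm (Multiplicative.ofAdd 1), by rw [hlg, MulEquiv.apply_symm_apply, toAdd_ofAdd]⟩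
  have hpow : ∀ j : ℕ, lg (c ^ j) = j := by
    intro j
    induction j with
    | zero => rw [pow_zero, hlg, map_one, toAdd_one, Nat.cast_zero]
    | succ j ih => rw [pow_succ, hmul, ih, hc, Nat.cast_succ]
  have hv : ∀ x y, (lg (x * y)).val = ((lg x).val + (lg y).val) % p := by
    intro x y
    rw [hmul, ZMod.val_add]
  have hcar := TRS_carry p hp.pos (fun x => (lg x).val) hv
  obtain ⟨f, hf⟩ : ∃ f : C → C → C → ZMod p, ∀ x y z, f x y z =
      lg x * ((((lg y).val + (lg z).val) / p : ℕ) : ZMod p) := ⟨_, fun x y z => rfl⟩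
  have hf3 : ∀ a b d g : C, f b d g - f (a * b) d g + f a (b * d) g - f a b (d * g) + f a b d = 0 := by
    intro a b d g
    have h1 := congrArg (fun n : ℕ => (n : ZMod p)) (hcar b d g)
    simp only [Nat.cast_add] at h1
    rw [hf, hf, hf, hf, hf, hmul a b]
    linear_combination (-lg a) * h1
  have hcard : Nat.card (Fp p) = p ^ 1 := by
    rw [pow_one]
    exact Nat.card_zmod p
  haveI hfin : Finite (Fp p) := inferInstanceAs (Finite (ZMod p))
  obtain ⟨h, _, hh⟩ := hH (Fp p) hfin ⟨1, hcard⟩ (fun a => isOpen_discrete _) f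
    (IsLocallyConstant.of_discrete _) (fun a b d g => hf3 a b d g)
  obtain ⟨k, key⟩ : ∃ k : C → C → ZMod p, ∀ a b d : C,
      f a b d = k b d - k (a * b) d + k a (b * d) - k a b := ⟨h, fun a b d => hh a b d⟩
  have hcp : c ^ p = 1 := by
    rw [← hC]
    exact pow_card_eq_one'
  have s1 : ∑ j ∈ Finset.range p, f c (c ^ j) c = 1 := by
    have h2 : ∀ j ∈ Finset.range p, f c (c ^ j) c = if j = p - 1 then 1 else 0 := by
      intro j hj
      have hj' := Finset.mem_range.1 hj
      rw [hf, hc, one_mul, hpow, ZMod.val_natCast, Nat.mod_eq_of_lt hj', ZMod.val_one]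
      by_cases hjp : j = p - 1
      · rw [if_pos hjp, show j + 1 = p by omega, Nat.div_self hp.pos, Nat.cast_one]
      · rw [if_neg hjp, Nat.div_eq_of_lt (by omega), Nat.cast_zero]
    rw [Finset.sum_congr rfl h2, Finset.sum_ite_eq' (Finset.range p) (p - 1), if_pos]
    exact Finset.mem_range.2 (Nat.sub_lt hp.pos Nat.one_pos)
  have s2 : ∑ j ∈ Finset.range p, f c (c ^ j) c = 0 := by
    have h2 : ∀ j ∈ Finset.range p, f c (c ^ j) c =
        (k (c ^ j) c - k (c ^ (j + 1)) c) + (k c (c ^ (j + 1)) - k c (c ^ j)) := by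
      intro j _
      rw [key, ← pow_succ, ← pow_succ']
      ring
    rw [Finset.sum_congr rfl h2, Finset.sum_add_distrib,
      Finset.sum_range_sub' (fun j => k (c ^ j) c) p,
      Finset.sum_range_sub (fun j => k c (c ^ j)) p, hcp, pow_zero, sub_self, sub_self,
      add_zero]
  rw [s1] at s2
  exact one_ne_zero s2

end Pool.Agent.PP2
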